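import Pool.Agent.Y481.DX.Defs2

/-!
# Project DX, piece EXPR: expansions times the factor of the exact formula
-/

set_option autoImplicit false

namespace Pool.Agent.Y977.DX

open Finset Filter Topology Metric
open Pool.Agent.Y481.DX (S_EXPR pzD wsl nbl)
open Pool.Agent.Y481.DR (nel)
open scoped Real

theorem expr : S_EXPR := by
  intro ts m a v y hy0 h
  set w : ℤ := wsl ts with hw
  set e : ℕ := nel ts with he
  set nb : ℕ := nbl ts with hnb
  set c : ℂ := 3 * π * Complex.I * w / 4 + 2 * π * Complex.I * nb + 4 * m * π * Complex.I with hc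
  set K0 : ℂ := (-1) ^ ts.length * (-Complex.I) ^ w * (Complex.I / (2 * π)) ^ e * (-1) ^ e with hK0
  have hπ : (π : ℂ) ≠ 0 := by exact_mod_cast Real.pi_ne_zero
  have hK0n : K0 ≠ 0 := by
    rw [hK0]
    refine mul_ne_zero (mul_ne_zero (mul_ne_zero (pow_ne_zero _ (by norm_num))
      (zpow_ne_zero _ (neg_ne_zero.2 Complex.I_ne_zero))) (pow_ne_zero _ ?_))
      (pow_ne_zero _ (by norm_num))
    exact div_ne_zero Complex.I_ne_zero (mul_ne_zero two_ne_zero hπ)
  have hux : Pool.Agent.W719.AX.UX (fun N (_ : Unit) =>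
      a N / (((Real.sqrt N) ^ 3 : ℝ) * Complex.exp (N * v))) (fun k _ => y k) Set.univ := by
    intro K
    obtain ⟨C, hC⟩ := h K
    exact ⟨C, hC.mono fun N hN _ _ => hN⟩
  have hprod := Pool.Agent.W303.AX.uxmul Unit _ _ _ _ _ hux (Pool.Agent.W962.AX.ux_exp c)
  refine ⟨fun k => K0 * Pool.Agent.W719.AX.cv (fun k (_ : Unit) => y k)
    (fun k _ => c ^ k / (k.factorial : ℂ)) k (), ?_, ?_⟩
  · refine mul_ne_zero hK0n ?_
    unfold Pool.Agent.W719.AX.cv
    simp only [zero_add, range_one, sum_singleton, Nat.sub_zero, pow_zero, Nat.factorial_zero,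
      Nat.cast_one, div_one, mul_one]
    exact hy0
  · intro K
    obtain ⟨C, hC⟩ := hprod K
    refine ⟨‖K0‖ * C, ?_⟩
    filter_upwards [hC, eventually_ge_atTop 2] with N hN hN2
    have hN0 : (N : ℂ) ≠ 0 := by
      have : N ≠ 0 := by omega
      exact_mod_cast this
    have hNr : (0 : ℝ) < N := by
      have : 0 < N := by omega
      exact_mod_cast this
    have hb := hN () (Set.mem_univ _)
    have hv4 : Pool.Agent.W711.HT.vN N ^ (4 * m) = Complex.exp ((4 * m * π * Complex.I) / N) := by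
      unfold Pool.Agent.W711.HT.vN
      rw [← Complex.exp_int_mul]
      congr 1
      push_cast
      ring
    have hkb : Pool.Agent.TH563.UV.kb N ^ nb = Complex.exp ((2 * π * Complex.I * nb) / N) := by
      unfold Pool.Agent.TH563.UV.kb
      rw [← Complex.exp_nat_mul]
      congr 1
      ring
    have hcs : Complex.exp (c / N) = Complex.exp ((3 * π * Complex.I * w / 4) / N) *
        Complex.exp ((2 * π * Complex.I * nb) / N) * Complex.exp ((4 * m * π * Complex.I) / N) := by
      rw [← Complex.exp_add, ← Complex.exp_add, ← add_div, ← add_div, hc]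
    have hsgn : (-1 : ℂ) ^ ((N - 1) * e) = (-1) ^ e * (-1) ^ (N * e) := by
      obtain ⟨N', rfl⟩ : ∃ N', N = N' + 1 := ⟨N - 1, by omega⟩
      rw [Nat.add_sub_cancel, ← pow_add]
      have e2 : e + (N' + 1) * e = N' * e + 2 * e := by ring
      rw [e2, pow_add, pow_mul (-1 : ℂ) 2]
      norm_num
    have hpow : (Complex.I * (N : ℂ) ^ 2 / (2 * π)) ^ e
        = (Complex.I / (2 * π)) ^ e * (N : ℂ) ^ (2 * e) := by
      rw [show Complex.I * (N : ℂ) ^ 2 / (2 * π) = Complex.I / (2 * π) * (N : ℂ) ^ 2 by ring,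
        mul_pow, ← pow_mul]
    have hpz : pzD N ts m * ((N : ℂ) ^ (2 * e) * (-1) ^ (N * e))⁻¹ =
        K0 * Complex.exp (c / N) * Complex.exp (N * (-(Complex.I * π * w / 4))) := by
      have hm : ((N : ℂ) ^ (2 * e) * (-1) ^ (N * e)) ≠ 0 :=
        mul_ne_zero (pow_ne_zero _ hN0) (pow_ne_zero _ (by norm_num))
      rw [← div_eq_mul_inv, div_eq_iff hm]
      unfold pzD
      rw [hv4, ← hw, ← hnb, ← he, hkb, Pool.Agent.W962.AX.kp_zpow N _ (by omega), mul_pow,
        ← pow_mul, hsgn, hpow, hcs, hK0]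
      ring
    have key : pzD N ts m * ((N : ℂ) ^ (2 * e) * (-1) ^ (N * e))⁻¹ * a N /
        (((Real.sqrt N) ^ 3 : ℝ) * Complex.exp (N * (v - π * Complex.I / 4 * w))) =
        K0 * (a N / (((Real.sqrt N) ^ 3 : ℝ) * Complex.exp (N * v)) * Complex.exp (c / N)) := by
      have hs3 : (((Real.sqrt N) ^ 3 : ℝ) : ℂ) ≠ 0 := by
        have : (Real.sqrt N) ^ 3 ≠ 0 := (pow_pos (Real.sqrt_pos.2 hNr) 3).ne'
        exact_mod_cast this
      have hex : Complex.exp (N * (v - π * Complex.I / 4 * w)) =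
          Complex.exp (N * v) * Complex.exp (N * (-(Complex.I * π * w / 4))) := by
        rw [← Complex.exp_add]
        congr 1
        ring
      have h0 := Complex.exp_ne_zero (N * v)
      have h1 := Complex.exp_ne_zero (N * (-(Complex.I * π * w / 4)))
      rw [hpz, hex]
      field_simp
    rw [key]
    have e3 : ∀ k, K0 * Pool.Agent.W719.AX.cv (fun k (_ : Unit) => y k)
        (fun k _ => c ^ k / (k.factorial : ℂ)) k () / (N : ℂ) ^ k =
        K0 * (Pool.Agent.W719.AX.cv (fun k (_ : Unit) => y k)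
        (fun k _ => c ^ k / (k.factorial : ℂ)) k () / (N : ℂ) ^ k) := fun k => by ring
    simp only [e3]
    rw [← Finset.mul_sum, ← mul_sub, norm_mul, mul_div_assoc]
    exact mul_le_mul_of_nonneg_left hb (norm_nonneg _)

end Pool.Agent.Y977.DX
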